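import Mathlib

/-! `log g(p) ≤ 8 p² log p` for the two-coloured convex polygon function `g(p)`. -/

open Finset

namespace Pool.Agent.Results.MP_6c3374_co.PolyLogBound

/-- the plane -/
abbrev Pt := ℝ × ℝ

/-- no three distinct points of `P` lie on a line -/
def GenPos (P : Finset Pt) : Prop :=
  ∀ a ∈ P, ∀ b ∈ P, ∀ c ∈ P, a ≠ b → a ≠ c → b ≠ c → ¬ Collinear ℝ ({a, b, c} : Set Pt)

/-- every point of `Q` is a vertex of the convex hull of `Q` -/
def ConvexPosition (Q : Finset Pt) : Prop :=
  ∀ q ∈ Q, q ∉ convexHull ℝ ((Q : Set Pt) \ {q})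

/-- Every set of `n` points in general position whose pairs are coloured with two colours contains
`p` points in convex position all of whose pairs have the same colour. -/
def Forces (p n : ℕ) : Prop :=
  ∀ P : Finset Pt, P.card = n → GenPos P → ∀ c : Sym2 Pt → Bool,
    ∃ Q ⊆ P, Q.card = p ∧ ConvexPosition Q ∧
      ∃ k : Bool, ∀ x ∈ Q, ∀ y ∈ Q, x ≠ y → c s(x, y) = k

/-- the least such `n` -/
noncomputable def g (p : ℕ) : ℕ := sInf {n : ℕ | Forces p n}

/-! ### Orientation -/

/-- cross product -/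
def cr (u v : Pt) : ℝ := u.1 * v.2 - u.2 * v.1

/-- orientation of a triple -/
def ori (a b c : Pt) : ℝ := cr (b - a) (c - a)

/-- a linear functional -/
def ph (t : ℝ) (u : Pt) : ℝ := u.1 + t * u.2

theorem ph_cr (t : ℝ) (u v w : Pt) :
    ph t v * cr u w = ph t w * cr u v + ph t u * cr v w := by
  unfold ph cr; ring

theorem collinear_of_ori {a b c : Pt} (hab : a ≠ b) (h : ori a b c = 0) :
    Collinear ℝ ({a, b, c} : Set Pt) := by
  rw [collinear_iff_of_mem (p₀ := a) (by simp)]
  refine ⟨b - a, ?_⟩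
  unfold ori cr at h
  simp only [Prod.fst_sub, Prod.snd_sub] at h
  intro q hq
  simp only [Set.mem_insert_iff, Set.mem_singleton_iff] at hq
  rcases hq with rfl | rfl | rfl
  · exact ⟨0, by simp⟩
  · exact ⟨1, by simp⟩
  · by_cases hx : b.1 - a.1 = 0
    · have hy : b.2 - a.2 ≠ 0 := by
        intro hy
        exact hab (Prod.ext (by linarith) (by linarith))
      refine ⟨(q.2 - a.2) / (b.2 - a.2), ?_⟩
      rw [hx, zero_mul, zero_sub, neg_eq_zero] at h
      have h0 : q.1 - a.1 = 0 := (mul_eq_zero.1 h).resolve_left hy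
      apply Prod.ext
      · simp only [vadd_eq_add, Prod.fst_add, Prod.smul_fst, Prod.fst_sub, smul_eq_mul]
        rw [hx]; linarith
      · simp only [vadd_eq_add, Prod.snd_add, Prod.smul_snd, Prod.snd_sub, smul_eq_mul]
        field_simp; ring
    · refine ⟨(q.1 - a.1) / (b.1 - a.1), ?_⟩
      apply Prod.ext
      · simp only [vadd_eq_add, Prod.fst_add, Prod.smul_fst, Prod.fst_sub, smul_eq_mul]
        field_simp; ring
      · simp only [vadd_eq_add, Prod.snd_add, Prod.smul_snd, Prod.snd_sub, smul_eq_mul]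
        field_simp; linarith

/-- a functional injective on a finite set -/
theorem exists_t (P : Finset Pt) : ∃ t : ℝ, ∀ a ∈ P, ∀ b ∈ P, ph t a = ph t b → a = b := by
  classical
  obtain ⟨t, ht⟩ := Infinite.exists_notMem_finset
    (P.offDiag.image (fun q => -(q.1.1 - q.2.1) / (q.1.2 - q.2.2)))
  refine ⟨t, ?_⟩
  intro a ha b hb hab
  by_contra hne
  apply ht
  rw [mem_image]
  refine ⟨(a, b), mem_offDiag.2 ⟨ha, hb, hne⟩, ?_⟩
  unfold ph at hab
  have h2 : a.2 - b.2 ≠ 0 := by
    intro h
    apply hne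
    have e : a.2 = b.2 := by linarith
    apply Prod.ext _ e
    rw [e] at hab
    linarith
  simp only
  rw [div_eq_iff h2]
  linarith

section Chain

variable (t : ℝ)

/-- transitivity of positive turns -/
theorem trans_pos {a b c d : Pt} (h1 : ph t a < ph t b) (h2 : ph t b < ph t c)
    (h3 : ph t c < ph t d) (hp : 0 < ori a b c) (hq : 0 < ori b c d) : 0 < ori a c d := by
  have e1 : ori a c d = cr (b - a) (d - c) + cr (c - b) (d - c) := by
    unfold ori cr; simp only [Prod.fst_sub, Prod.snd_sub]; ring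
  have e2 : ori a b c = cr (b - a) (c - b) := by
    unfold ori cr; simp only [Prod.fst_sub, Prod.snd_sub]; ring
  have e3 : ori b c d = cr (c - b) (d - c) := by
    unfold ori cr; simp only [Prod.fst_sub, Prod.snd_sub]; ring
  rw [e2] at hp
  rw [e3] at hq
  have p1 : 0 < ph t (b - a) := by unfold ph at *; simp only [Prod.fst_sub, Prod.snd_sub]; linarith
  have p2 : 0 < ph t (c - b) := by unfold ph at *; simp only [Prod.fst_sub, Prod.snd_sub]; linarith
  have p3 : 0 < ph t (d - c) := by unfold ph at *; simp only [Prod.fst_sub, Prod.snd_sub]; linarith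
  have h := ph_cr t (b - a) (c - b) (d - c)
  have h4 : 0 < ph t (c - b) * cr (b - a) (d - c) := by
    rw [h]; positivity
  have h5 : 0 < cr (b - a) (d - c) := (pos_iff_pos_of_mul_pos h4).1 p2
  rw [e1]; linarith

/-- the set of earlier points from which the turn at `v` towards `r` is positive -/
noncomputable def Sg (A : Finset Pt) (v r : Pt) : Finset Pt := by
  classical exact A.filter (fun a => 0 < ori a v r)

theorem Sg_nested {A : Finset Pt} {v r r' : Pt} (hA : ∀ a ∈ A, ph t a < ph t v)
    (hr : ph t v < ph t r) (hr' : ph t v < ph t r') : Sg A v r ⊆ Sg A v r' ∨ Sg A v r' ⊆ Sg A v r := by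
  classical
  by_contra hcon
  push Not at hcon
  obtain ⟨h1, h2⟩ := hcon
  rw [Finset.not_subset] at h1 h2
  obtain ⟨a, ha, ha'⟩ := h1
  obtain ⟨b, hb, hb'⟩ := h2
  unfold Sg at ha ha' hb hb'
  rw [mem_filter] at ha ha' hb hb'
  have ha2 : ori a v r' ≤ 0 := by
    by_contra h; exact ha' ⟨ha.1, by linarith⟩
  have hb2 : ori b v r ≤ 0 := by
    by_contra h; exact hb' ⟨hb.1, by linarith⟩
  have e : ∀ x y : Pt, ori x v y = cr (v - x) (y - v) := by
    intro x y; unfold ori cr; simp only [Prod.fst_sub, Prod.snd_sub]; ring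
  have a1 := ha.2
  have b1 := hb.2
  rw [e] at a1 b1 ha2 hb2
  have pa : 0 < ph t (v - a) := by
    have := hA a ha.1
    unfold ph at *; simp only [Prod.fst_sub, Prod.snd_sub]; linarith
  have pb : 0 < ph t (v - b) := by
    have := hA b hb.1
    unfold ph at *; simp only [Prod.fst_sub, Prod.snd_sub]; linarith
  have pr : 0 < ph t (r - v) := by
    unfold ph at *; simp only [Prod.fst_sub, Prod.snd_sub]; linarith
  have pr' : 0 < ph t (r' - v) := by
    unfold ph at *; simp only [Prod.fst_sub, Prod.snd_sub]; linarith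
  -- cr (r - v) (r' - v) from a : negative; from b : positive
  have k1 := ph_cr t (r - v) (v - a) (r' - v)
  have k2 := ph_cr t (r - v) (v - b) (r' - v)
  have n1 : cr (r - v) (v - a) = - cr (v - a) (r - v) := by unfold cr; ring
  have n2 : cr (r - v) (v - b) = - cr (v - b) (r - v) := by unfold cr; ring
  have s1 : ph t (v - a) * cr (r - v) (r' - v) < 0 := by
    rw [k1, n1]
    nlinarith [mul_pos pr' a1, mul_nonneg pr.le (neg_nonneg.2 ha2)]
  have s2 : 0 < ph t (v - b) * cr (r - v) (r' - v) := by
    rw [k2, n2]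
    nlinarith [mul_pos pr b1, mul_nonneg pr'.le (neg_nonneg.2 hb2)]
  have s3 : 0 < cr (r - v) (r' - v) := (pos_iff_pos_of_mul_pos s2).1 pb
  have s4 : 0 < ph t (v - a) * cr (r - v) (r' - v) := mul_pos pa s3
  linarith

/-- the number of points needed -/
def B : ℕ → ℕ → ℕ
  | 0, _ => 0
  | s + 1, a => 2 * (a + 1) * B s (a + 1) + 1

/-- Nested sequences: colours depend on the first vertex, turns on the first two. -/
theorem exists_seq (c : Sym2 Pt → Bool) : ∀ (s : ℕ) (A R : Finset Pt),
    (∀ a ∈ A, ∀ r ∈ R, ph t a < ph t r) →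
    (∀ a ∈ R, ∀ b ∈ R, ph t a = ph t b → a = b) →
    B s A.card ≤ R.card →
    ∃ v : ℕ → Pt, (∀ i < s, v i ∈ R) ∧ (∀ i j, i < j → j < s → ph t (v i) < ph t (v j)) ∧
      (∃ k : ℕ → Bool, ∀ i j, i < j → j < s → c s(v i, v j) = k i) ∧
      (∀ i j l m, i < j → j < l → j < m → l < s → m < s →
        (0 < ori (v i) (v j) (v l) ↔ 0 < ori (v i) (v j) (v m))) ∧
      (∀ a ∈ A, ∀ j l m, j < l → j < m → l < s → m < s →
        (0 < ori a (v j) (v l) ↔ 0 < ori a (v j) (v m))) := by
  classical
  intro s
  induction s with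
  | zero =>
    intro A R _ _ _
    refine ⟨fun _ => 0, by omega, by omega, ⟨fun _ => true, by omega⟩, ?_, ?_⟩
    · intro i j l m _ _ _ hl; omega
    · intro a _ j l m _ _ hl; omega
  | succ s ih =>
    intro A R hAR hinj hB
    have hRne : R.Nonempty := by
      rw [← Finset.card_pos]
      have : B (s + 1) A.card = 2 * (A.card + 1) * B s (A.card + 1) + 1 := rfl
      omega
    obtain ⟨v0, hv0, hmin⟩ := Finset.exists_min_image R (ph t) hRne
    set R1 := R.erase v0 with hR1
    have hlt : ∀ r ∈ R1, ph t v0 < ph t r := by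
      intro r hr
      rw [hR1, mem_erase] at hr
      refine lt_of_le_of_ne (hmin r hr.2) ?_
      intro h
      exact hr.1 (hinj v0 hv0 r hr.2 h).symm
    have hc1 : 2 * (A.card + 1) * B s (A.card + 1) ≤ R1.card := by
      rw [hR1, card_erase_of_mem hv0]
      have : B (s + 1) A.card = 2 * (A.card + 1) * B s (A.card + 1) + 1 := rfl
      omega
    have hAv : ∀ a ∈ A, ph t a < ph t v0 := fun a ha => hAR a ha v0 hv0
    -- classes
    let F : Pt → Bool × Fin (A.card + 1) := fun r =>
      (c s(v0, r), ⟨(Sg A v0 r).card, Nat.lt_succ_of_le (by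
        unfold Sg; exact card_filter_le _ _)⟩)
    have hT : (univ : Finset (Bool × Fin (A.card + 1))).card = 2 * (A.card + 1) := by
      rw [card_univ, Fintype.card_prod, Fintype.card_bool, Fintype.card_fin]
    obtain ⟨⟨k0, n0⟩, -, hcl⟩ := Finset.exists_le_card_fiber_of_mul_le_card_of_maps_to
      (s := R1) (t := (univ : Finset (Bool × Fin (A.card + 1)))) (f := F)
      (n := B s (A.card + 1)) (fun _ _ => mem_univ _) ⟨(true, 0), mem_univ _⟩
      (by rw [hT]; exact hc1)
    set R2 := R1.filter (fun r => F r = (k0, n0)) with hR2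
    have hR2R1 : R2 ⊆ R1 := filter_subset _ _
    have hR2R : R2 ⊆ R := hR2R1.trans (erase_subset _ _)
    have hv0A : v0 ∉ A := fun h => lt_irrefl _ (hAv v0 h)
    have hSg : ∀ r ∈ R2, ∀ r' ∈ R2, Sg A v0 r = Sg A v0 r' := by
      intro r hr r' hr'
      have h1 := (mem_filter.1 hr).2
      have h2 := (mem_filter.1 hr').2
      have h3 : (Sg A v0 r).card = (Sg A v0 r').card := by
        have e1 := congrArg (fun z => (z.2 : ℕ)) h1
        have e2 := congrArg (fun z => (z.2 : ℕ)) h2
        simp only [F] at e1 e2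
        omega
      rcases Sg_nested t hAv (hlt r (hR2R1 hr)) (hlt r' (hR2R1 hr')) with h | h
      · exact eq_of_subset_of_card_le h h3.ge
      · exact (eq_of_subset_of_card_le h h3.le).symm
    obtain ⟨v, hv1, hv2, ⟨k, hk⟩, hv3, hv4⟩ := ih (insert v0 A) R2
      (by
        intro a ha r hr
        rcases mem_insert.1 ha with rfl | ha
        · exact hlt r (hR2R1 hr)
        · exact hAR a ha r (hR2R hr))
      (fun a ha b hb => hinj a (hR2R ha) b (hR2R hb))
      (by rw [card_insert_of_notMem hv0A]; exact hcl)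
    refine ⟨fun i => if i = 0 then v0 else v (i - 1), ?_, ?_, ?_, ?_, ?_⟩
    · intro i hi
      by_cases h0 : i = 0
      · simp [h0, hv0]
      · simp only [h0, if_false]
        exact hR2R (hv1 _ (by omega))
    · intro i j hij hj
      have hj0 : j ≠ 0 := by omega
      by_cases h0 : i = 0
      · simp only [h0, if_true, hj0, if_false]
        exact hlt _ (hR2R1 (hv1 _ (by omega)))
      · simp only [h0, if_false, hj0]
        exact hv2 _ _ (by omega) (by omega)
    · refine ⟨fun i => if i = 0 then k0 else k (i - 1), ?_⟩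
      intro i j hij hj
      have hj0 : j ≠ 0 := by omega
      by_cases h0 : i = 0
      · simp only [h0, if_true, hj0, if_false]
        have h1 := (mem_filter.1 (hv1 (j - 1) (by omega))).2
        exact congrArg Prod.fst h1
      · simp only [h0, if_false, hj0]
        exact hk _ _ (by omega) (by omega)
    · intro i j l m hij hjl hjm hl hm
      have hj0 : j ≠ 0 := by omega
      have hl0 : l ≠ 0 := by omega
      have hm0 : m ≠ 0 := by omega
      by_cases h0 : i = 0
      · simp only [h0, if_true, hj0, hl0, hm0, if_false]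
        exact hv4 v0 (mem_insert_self _ _) _ _ _ (by omega) (by omega) (by omega) (by omega)
      · simp only [h0, if_false, hj0, hl0, hm0]
        exact hv3 _ _ _ _ (by omega) (by omega) (by omega) (by omega) (by omega)
    · intro a ha j l m hjl hjm hl hm
      have hl0 : l ≠ 0 := by omega
      have hm0 : m ≠ 0 := by omega
      by_cases h0 : j = 0
      · simp only [h0, if_true, hl0, hm0, if_false]
        have h1 := hSg _ (hv1 (l - 1) (by omega)) _ (hv1 (m - 1) (by omega))
        have h2 : a ∈ Sg A v0 (v (l - 1)) ↔ a ∈ Sg A v0 (v (m - 1)) := by rw [h1]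
        unfold Sg at h2
        simpa [mem_filter, ha] using h2
      · simp only [h0, if_false, hl0, hm0]
        exact hv4 a (mem_insert_of_mem ha) _ _ _ (by omega) (by omega) (by omega) (by omega)

end Chain

/-- Chains and antichains for a transitive relation on increasing pairs. -/
theorem ramsey_trans (T : ℕ → ℕ → Prop) (htr : ∀ i j k, i < j → j < k → T i j → T j k → T i k)
    (b : ℕ) : ∀ (a : ℕ) (I : Finset ℕ), a * b < I.card →
      (∃ J ⊆ I, J.card = a + 1 ∧ ∀ i ∈ J, ∀ j ∈ J, i < j → T i j) ∨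
      (∃ J ⊆ I, J.card = b + 1 ∧ ∀ i ∈ J, ∀ j ∈ J, i < j → ¬ T i j) := by
  classical
  intro a
  induction a with
  | zero =>
    intro I hI
    left
    obtain ⟨x, hx⟩ := Finset.card_pos.1 (show 0 < I.card by omega)
    refine ⟨{x}, by simpa using hx, by simp, ?_⟩
    intro i hi j hj hij
    rw [mem_singleton] at hi hj
    omega
  | succ a ih =>
    intro I hI
    set M := I.filter (fun i => ∀ j ∈ I, j < i → ¬ T j i) with hM
    by_cases hMb : b < M.card
    · right
      obtain ⟨J, hJM, hJ⟩ := Finset.exists_subset_card_eq (show b + 1 ≤ M.card by omega)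
      refine ⟨J, hJM.trans (filter_subset _ _), hJ, ?_⟩
      intro i hi j hj hij
      exact (mem_filter.1 (hJM hj)).2 i (mem_filter.1 (hJM hi)).1 hij
    · have hcard : a * b < (I \ M).card := by
        have h1 : (I \ M).card = I.card - M.card := card_sdiff_of_subset (filter_subset _ _)
        have h2 : (a + 1) * b = a * b + b := by ring
        rw [h2] at hI
        omega
      rcases ih (I \ M) hcard with ⟨J, hJ1, hJ2, hJ3⟩ | ⟨J, hJ1, hJ2, hJ3⟩
      · left
        have hne : J.Nonempty := by rw [← Finset.card_pos]; omega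
        set i0 := J.min' hne with hi0
        have hi0J : i0 ∈ J := J.min'_mem hne
        have hi0I := hJ1 hi0J
        rw [mem_sdiff] at hi0I
        have hex : ∃ j ∈ I, j < i0 ∧ T j i0 := by
          by_contra hcon
          push Not at hcon
          exact hi0I.2 (mem_filter.2 ⟨hi0I.1, fun j hj hji => hcon j hj hji⟩)
        obtain ⟨j, hjI, hji, hTj⟩ := hex
        have hjJ : j ∉ J := fun h => by
          have := J.min'_le j h
          omega
        refine ⟨insert j J, ?_, by rw [card_insert_of_notMem hjJ, hJ2], ?_⟩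
        · intro x hx
          rcases mem_insert.1 hx with rfl | hx
          · exact hjI
          · exact (mem_sdiff.1 (hJ1 hx)).1
        · intro x hx y hy hxy
          rcases mem_insert.1 hx with rfl | hx1
          · rcases mem_insert.1 hy with hyj | hy
            · omega
            · by_cases hyi : y = i0
              · rw [hyi]; exact hTj
              · have h1 : i0 < y := lt_of_le_of_ne (J.min'_le y hy) (Ne.symm hyi)
                exact htr _ _ _ hji h1 hTj (hJ3 _ hi0J _ hy h1)
          · rcases mem_insert.1 hy with hyj | hy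
            · have := J.min'_le x hx1
              omega
            · exact hJ3 x hx1 y hy hxy
      · right
        exact ⟨J, hJ1.trans sdiff_subset, hJ2, hJ3⟩

/-- a set all of whose turns have the same sign is in convex position -/
theorem convex_of_turns (t : ℝ) (Q : Finset Pt) (e : ℝ)
    (hinj : ∀ a ∈ Q, ∀ b ∈ Q, ph t a = ph t b → a = b)
    (h : ∀ a ∈ Q, ∀ b ∈ Q, ∀ c ∈ Q, ph t a < ph t b → ph t b < ph t c → 0 < e * ori a b c) :
    ConvexPosition Q := by
  classical
  intro q hq hmem
  -- general separation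
  have sep : ∀ (α β γ : ℝ), (∀ x ∈ Q, x ≠ q → 0 ≤ α * x.1 + β * x.2 + γ) →
      α * q.1 + β * q.2 + γ < 0 → False := by
    intro α β γ h1 h2
    have hconv : Convex ℝ {x : Pt | 0 ≤ α * x.1 + β * x.2 + γ} := by
      intro x hx y hy a b ha hb hab
      rw [Set.mem_ofPred_eq] at hx hy ⊢
      simp only [Prod.fst_add, Prod.smul_fst, Prod.snd_add, Prod.smul_snd, smul_eq_mul]
      have : α * (a * x.1 + b * y.1) + β * (a * x.2 + b * y.2) + γ =
          a * (α * x.1 + β * x.2 + γ) + b * (α * y.1 + β * y.2 + γ) + (1 - (a + b)) * γ := by ring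
      rw [this, hab]
      have := mul_nonneg ha hx
      have := mul_nonneg hb hy
      linarith
    have hsub : convexHull ℝ ((Q : Set Pt) \ {q}) ⊆ {x : Pt | 0 ≤ α * x.1 + β * x.2 + γ} := by
      apply convexHull_min _ hconv
      intro x hx
      exact h1 x (by exact_mod_cast hx.1) (by simpa using hx.2)
    have := hsub hmem
    rw [Set.mem_ofPred_eq] at this
    linarith
  by_cases hlow : ∃ x ∈ Q, ph t x < ph t q
  · by_cases hhigh : ∃ x ∈ Q, ph t q < ph t x
    · -- neighbours
      obtain ⟨a, haQ, hamax⟩ := Finset.exists_max_image (Q.filter (fun x => ph t x < ph t q)) (ph t)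
        (by obtain ⟨x, hx, hx'⟩ := hlow; exact ⟨x, mem_filter.2 ⟨hx, hx'⟩⟩)
      obtain ⟨b, hbQ, hbmin⟩ := Finset.exists_min_image (Q.filter (fun x => ph t q < ph t x)) (ph t)
        (by obtain ⟨x, hx, hx'⟩ := hhigh; exact ⟨x, mem_filter.2 ⟨hx, hx'⟩⟩)
      rw [mem_filter] at haQ hbQ
      have hform : ∀ x : Pt, e * ori a b x = (e * (-(b.2 - a.2))) * x.1 + (e * (b.1 - a.1)) * x.2 +
          e * ((b.2 - a.2) * a.1 - (b.1 - a.1) * a.2) := by
        intro x; unfold ori cr; simp only [Prod.fst_sub, Prod.snd_sub]; ring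
      apply sep (e * (-(b.2 - a.2))) (e * (b.1 - a.1)) (e * ((b.2 - a.2) * a.1 - (b.1 - a.1) * a.2))
      · intro x hx hxq
        rw [← hform]
        rcases lt_trichotomy (ph t x) (ph t q) with hlt | heq | hgt
        · rcases (hamax x (mem_filter.2 ⟨hx, hlt⟩)).lt_or_eq with h1 | h1
          · have := h x hx a haQ.1 b hbQ.1 h1 (haQ.2.trans hbQ.2)
            have e1 : ori x a b = ori a b x := by
              unfold ori cr; simp only [Prod.fst_sub, Prod.snd_sub]; ring
            rw [e1] at this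
            exact this.le
          · have := hinj x hx a haQ.1 h1
            subst this
            have e1 : ori x b x = 0 := by unfold ori cr; simp
            rw [e1, mul_zero]
        · exact absurd (hinj x hx q hq heq) hxq
        · rcases (hbmin x (mem_filter.2 ⟨hx, hgt⟩)).lt_or_eq with h1 | h1
          · exact (h a haQ.1 b hbQ.1 x hx (haQ.2.trans hbQ.2) h1).le
          · have := hinj b hbQ.1 x hx h1
            subst this
            have e1 : ori a b b = 0 := by unfold ori cr; ring
            rw [e1, mul_zero]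
      · rw [← hform]
        have := h a haQ.1 q hq b hbQ.1 haQ.2 hbQ.2
        have e1 : ori a b q = - ori a q b := by
          unfold ori cr; simp only [Prod.fst_sub, Prod.snd_sub]; ring
        rw [e1]
        linarith
    · push Not at hhigh
      obtain ⟨a, haQ, hamax⟩ := Finset.exists_max_image (Q.filter (fun x => ph t x < ph t q)) (ph t)
        (by obtain ⟨x, hx, hx'⟩ := hlow; exact ⟨x, mem_filter.2 ⟨hx, hx'⟩⟩)
      rw [mem_filter] at haQ
      apply sep (-1) (-t) (ph t a)
      · intro x hx hxq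
        have h1 : ph t x < ph t q :=
          lt_of_le_of_ne (hhigh x hx) (fun h => hxq (hinj x hx q hq h))
        have h2 := hamax x (mem_filter.2 ⟨hx, h1⟩)
        unfold ph at h2 ⊢
        linarith
      · have := haQ.2
        unfold ph at this ⊢
        linarith
  · push Not at hlow
    by_cases hhigh : ∃ x ∈ Q, ph t q < ph t x
    · obtain ⟨b, hbQ, hbmin⟩ := Finset.exists_min_image (Q.filter (fun x => ph t q < ph t x)) (ph t)
        (by obtain ⟨x, hx, hx'⟩ := hhigh; exact ⟨x, mem_filter.2 ⟨hx, hx'⟩⟩)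
      rw [mem_filter] at hbQ
      apply sep 1 t (-(ph t b))
      · intro x hx hxq
        have h1 : ph t q < ph t x :=
          lt_of_le_of_ne (hlow x hx) (fun h => hxq (hinj x hx q hq h.symm))
        have h2 := hbmin x (mem_filter.2 ⟨hx, h1⟩)
        unfold ph at h2 ⊢
        linarith
      · have := hbQ.2
        unfold ph at this ⊢
        linarith
    · push Not at hhigh
      apply sep 0 0 (-1)
      · intro x hx hxq
        exact absurd (hinj x hx q hq (le_antisymm (hhigh x hx) (hlow x hx))) hxq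
      · norm_num

theorem B_le : ∀ s a : ℕ, B s a ≤ (3 * (a + s)) ^ s := by
  intro s
  induction s with
  | zero => intro a; simp [B]
  | succ s ih =>
    intro a
    have h := ih (a + 1)
    have h1 : B (s + 1) a = 2 * (a + 1) * B s (a + 1) + 1 := rfl
    have h2 : a + 1 + s = a + (s + 1) := by ring
    rw [h2] at h
    have h3 : 1 ≤ (3 * (a + (s + 1))) ^ s := Nat.one_le_pow _ _ (by omega)
    rw [h1, pow_succ]
    calc 2 * (a + 1) * B s (a + 1) + 1
        ≤ 2 * (a + (s + 1)) * (3 * (a + (s + 1))) ^ s + (a + (s + 1)) * (3 * (a + (s + 1))) ^ s := by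
          apply Nat.add_le_add
          · exact Nat.mul_le_mul (by omega) h
          · calc 1 = 1 * 1 := rfl
              _ ≤ _ := Nat.mul_le_mul (by omega) h3
      _ = (3 * (a + (s + 1))) ^ s * (3 * (a + (s + 1))) := by ring

/-- the main combinatorial statement -/
theorem forces_of_large {p n : ℕ} (hp : 1 ≤ p)
    (hn : B (2 * (p - 1) ^ 2 + 2) 0 ≤ n) : Forces p n := by
  classical
  intro P hPn hgp c
  obtain ⟨t, ht⟩ := exists_t P
  set m := 2 * (p - 1) ^ 2 + 1 with hm
  obtain ⟨v, hv1, hv2, ⟨k, hk⟩, hv3, -⟩ := exists_seq t c (m + 1) ∅ P (by simp) ht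
    (by rw [card_empty, hPn]; exact hn)
  -- majority colour
  obtain ⟨k0, hk0⟩ : ∃ k0 : Bool, (p - 1) * (p - 1) < ((range m).filter (fun i => k i = k0)).card := by
    by_contra hcon
    push Not at hcon
    have h1 := hcon true
    have h2 := hcon false
    have h3 := Finset.card_filter_add_card_filter_not (s := range m) (fun i => k i = true)
    have h4 : (range m).filter (fun i => ¬ k i = true) = (range m).filter (fun i => k i = false) := by
      apply filter_congr
      intro i _
      simp
    rw [h4, card_range] at h3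
    have h5 : (p - 1) ^ 2 = (p - 1) * (p - 1) := by ring
    omega
  set I := (range m).filter (fun i => k i = k0) with hI
  have hIm : ∀ i ∈ I, i < m := fun i hi => mem_range.1 (mem_filter.1 hi).1
  -- distinctness
  have hne : ∀ i j, i < j → j < m + 1 → v i ≠ v j := fun i j hij hj h => by
    have := hv2 i j hij hj
    rw [h] at this
    exact lt_irrefl _ this
  have hori : ∀ i j l, i < j → j < l → l < m + 1 → ori (v i) (v j) (v l) ≠ 0 := by
    intro i j l hij hjl hl h
    exact hgp (v i) (hv1 i (by omega)) (v j) (hv1 j (by omega)) (v l) (hv1 l hl)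
      (hne i j hij (by omega)) (hne i l (by omega) hl) (hne j l hjl hl)
      (collinear_of_ori (hne i j hij (by omega)) h)
  let T : ℕ → ℕ → Prop := fun i j => m ≤ j ∨ 0 < ori (v i) (v j) (v m)
  have htr : ∀ i j l, i < j → j < l → T i j → T j l → T i l := by
    intro i j l hij hjl h1 h2
    by_cases hl : m ≤ l
    · exact Or.inl hl
    · right
      have h1' : 0 < ori (v i) (v j) (v m) := h1.resolve_left (by omega)
      have h2' : 0 < ori (v j) (v l) (v m) := h2.resolve_left (by omega)
      have h3 : 0 < ori (v i) (v j) (v l) :=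
        (hv3 i j l m hij hjl (by omega) (by omega) (by omega)).2 h1'
      exact trans_pos t (hv2 _ _ hij (by omega)) (hv2 _ _ hjl (by omega))
        (hv2 _ _ (by omega) (by omega)) h3 h2'
  obtain ⟨J, hJI, hJc, e, he⟩ : ∃ J ⊆ I, J.card = p ∧ ∃ e : ℝ, ∀ i ∈ J, ∀ j ∈ J, i < j →
      ∀ l, j < l → l < m + 1 → 0 < e * ori (v i) (v j) (v l) := by
    rcases ramsey_trans T htr (p - 1) (p - 1) I hk0 with ⟨J, h1, h2, h3⟩ | ⟨J, h1, h2, h3⟩
    · refine ⟨J, h1, by omega, 1, ?_⟩
      intro i hi j hj hij l hjl hl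
      have hjm := hIm j (h1 hj)
      have h4 : 0 < ori (v i) (v j) (v m) := (h3 i hi j hj hij).resolve_left (by omega)
      rw [one_mul]
      exact (hv3 i j l m hij hjl hjm hl (by omega)).2 h4
    · refine ⟨J, h1, by omega, -1, ?_⟩
      intro i hi j hj hij l hjl hl
      have hjm := hIm j (h1 hj)
      have h4 : ¬ 0 < ori (v i) (v j) (v m) := fun h => h3 i hi j hj hij (Or.inr h)
      have h5 : ¬ 0 < ori (v i) (v j) (v l) := fun h =>
        h4 ((hv3 i j l m hij hjl hjm hl (by omega)).1 h)
      have h6 := lt_of_le_of_ne (not_lt.1 h5) (hori i j l hij hjl hl)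
      linarith
  have hJm : ∀ i ∈ J, i < m := fun i hi => hIm i (hJI hi)
  have hvinj : Set.InjOn v J := by
    intro i hi j hj h
    rcases lt_trichotomy i j with h1 | h1 | h1
    · exact absurd h (hne i j h1 (by have := hJm j hj; omega))
    · exact h1
    · exact absurd h.symm (hne j i h1 (by have := hJm i hi; omega))
  have hmono : ∀ i ∈ J, ∀ j ∈ J, ph t (v i) < ph t (v j) → i < j := by
    intro i hi j hj h
    by_contra hcon
    rcases (not_lt.1 hcon).lt_or_eq with h1 | h1
    · have := hv2 j i h1 (by have := hJm i hi; omega)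
      linarith
    · rw [h1] at h
      exact lt_irrefl _ h
  refine ⟨J.image v, ?_, ?_, ?_, k0, ?_⟩
  · intro x hx
    obtain ⟨i, hi, rfl⟩ := mem_image.1 hx
    exact hv1 i (by have := hJm i hi; omega)
  · rw [card_image_of_injOn hvinj, hJc]
  · apply convex_of_turns t _ e
    · intro a ha b hb hab
      obtain ⟨i, hi, rfl⟩ := mem_image.1 ha
      obtain ⟨j, hj, rfl⟩ := mem_image.1 hb
      exact ht _ (hv1 i (by have := hJm i hi; omega)) _ (hv1 j (by have := hJm j hj; omega)) hab
    · intro a ha b hb d hd hab hbd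
      obtain ⟨i, hi, rfl⟩ := mem_image.1 ha
      obtain ⟨j, hj, rfl⟩ := mem_image.1 hb
      obtain ⟨l, hl, rfl⟩ := mem_image.1 hd
      exact he i hi j hj (hmono i hi j hj hab) l (hmono j hj l hl hbd) (by have := hJm l hl; omega)
  · intro x hx y hy hxy
    obtain ⟨i, hi, rfl⟩ := mem_image.1 hx
    obtain ⟨j, hj, rfl⟩ := mem_image.1 hy
    have hik := (mem_filter.1 (hJI hi)).2
    have hjk := (mem_filter.1 (hJI hj)).2
    rcases lt_trichotomy i j with h1 | h1 | h1
    · rw [hk i j h1 (by have := hJm j hj; omega), hik]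
    · exact absurd (by rw [h1]) hxy
    · rw [Sym2.eq_swap, hk j i h1 (by have := hJm i hi; omega), hjk]

theorem forces_pow {p n : ℕ} (hp : 3 ≤ p) (hn : p ^ (8 * p ^ 2) ≤ n) : Forces p n := by
  apply forces_of_large (by omega)
  refine le_trans ?_ hn
  refine (B_le _ _).trans ?_
  have h1 : 2 * (p - 1) ^ 2 + 2 ≤ 2 * p ^ 2 := by
    obtain ⟨q, rfl⟩ : ∃ q, p = q + 1 := ⟨p - 1, by omega⟩
    simp only [Nat.add_sub_cancel]
    nlinarith
  have h2 : 3 * (0 + (2 * (p - 1) ^ 2 + 2)) ≤ p ^ 4 := by
    have h3 : 6 ≤ p ^ 2 := by nlinarith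
    calc 3 * (0 + (2 * (p - 1) ^ 2 + 2)) ≤ 3 * (2 * p ^ 2) := by omega
      _ = 6 * p ^ 2 := by ring
      _ ≤ p ^ 2 * p ^ 2 := Nat.mul_le_mul_right _ h3
      _ = p ^ 4 := by ring
  calc (3 * (0 + (2 * (p - 1) ^ 2 + 2))) ^ (2 * (p - 1) ^ 2 + 2)
      ≤ (p ^ 4) ^ (2 * (p - 1) ^ 2 + 2) := Nat.pow_le_pow_left h2 _
    _ ≤ (p ^ 4) ^ (2 * p ^ 2) := Nat.pow_le_pow_right (Nat.pow_pos (by omega)) h1
    _ = p ^ (8 * p ^ 2) := by rw [← pow_mul]; congr 1; ring

/-- **Upper bound.** For every `p ≥ 3` the number `g(p)` is well defined (every `n ≥ p^(8p²)` has the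
property) and `log₂ g(p) ≤ 8 p² log₂ p`. -/
theorem result : ∀ p : ℕ, 3 ≤ p →
    (∀ n : ℕ, p ^ (8 * p ^ 2) ≤ n → Forces p n) ∧ Forces p (g p) ∧
      Real.logb 2 (g p) ≤ 8 * (p : ℝ) ^ 2 * Real.logb 2 p := by
  intro p hp
  have hne : {n : ℕ | Forces p n}.Nonempty := ⟨_, forces_pow hp le_rfl⟩
  have hg : g p ≤ p ^ (8 * p ^ 2) := Nat.sInf_le (forces_pow hp le_rfl)
  refine ⟨fun n hn => forces_pow hp hn, Nat.sInf_mem hne, ?_⟩
  have hg0 : 0 < g p := by
    rw [Nat.pos_iff_ne_zero]
    intro h0
    have hf : Forces p (g p) := Nat.sInf_mem hne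
    rw [h0] at hf
    obtain ⟨Q, hQ, hQc, -⟩ := hf ∅ rfl (by intro a ha; simp at ha) (fun _ => true)
    rw [subset_empty] at hQ
    rw [hQ, card_empty] at hQc
    omega
  have hp0 : (0 : ℝ) < p := by exact_mod_cast (by omega : 0 < p)
  have h1 : ((g p : ℕ) : ℝ) ≤ (p : ℝ) ^ (8 * p ^ 2) := by exact_mod_cast hg
  calc Real.logb 2 (g p) ≤ Real.logb 2 ((p : ℝ) ^ (8 * p ^ 2)) :=
        Real.logb_le_logb_of_le (by norm_num) (by exact_mod_cast hg0) h1
    _ = 8 * (p : ℝ) ^ 2 * Real.logb 2 p := by
        rw [Real.logb_pow]; push_cast; ring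

end Pool.Agent.Results.MP_6c3374_co.PolyLogBound
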